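import Pool.Agent.R869.WDens

/-!
The number of the lattice points at which a function that is affine in each variable is small, with a rate.
-/

set_option autoImplicit false

namespace Pool.Agent.L5helper62.MC

open Finset Pool.Agent.R869.Wd

/-- the number of points where `f` is small -/
noncomputable def cnt {κ : Type} [Fintype κ] [DecidableEq κ] (f : (κ → ℝ) → ℝ) (d : ℕ) (η : ℝ) : ℝ :=
  ((univ.filter fun x : κ → Fin (d + 1) => |f (fun j => ((x j : ℕ) : ℝ) / d)| ≤ η).card : ℝ)

theorem cnt_le {κ : Type} [Fintype κ] [DecidableEq κ] (f : (κ → ℝ) → ℝ) (d : ℕ) (η : ℝ) :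
    cnt f d η ≤ ((d : ℝ) + 1) ^ Fintype.card κ := by
  unfold cnt
  have h := card_filter_le (univ : Finset (κ → Fin (d + 1)))
    (fun x : κ → Fin (d + 1) => |f (fun j => ((x j : ℕ) : ℝ) / d)| ≤ η)
  rw [card_univ, Fintype.card_fun, Fintype.card_fin] at h
  exact_mod_cast h

theorem rate_fin : ∀ (m : ℕ) (f : (Fin m → ℝ) → ℝ), SepAff f → (∃ x, f x ≠ 0) → ∀ δ : ℝ, 0 < δ → δ ≤ 1 →
    ∃ C : ℝ, 1 ≤ C ∧ ∀ d : ℕ, 0 < d → ∀ η : ℝ, 1 ≤ η * d → cnt f d η ≤ C * η ^ (1 - δ) * (d + 1) ^ m
  | 0, f, _, ⟨x, hx⟩, δ, hδ, hδ1 => by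
    have hpos := abs_pos.2 hx
    refine ⟨max 1 ((|f x| ^ (1 - δ))⁻¹), le_max_left _ _, fun d hd η hη => ?_⟩
    have hd' : (0 : ℝ) < d := by exact_mod_cast hd
    have hη0 : 0 < η := by
      by_contra hcon
      push Not at hcon
      nlinarith
    by_cases h : |f x| ≤ η
    · refine (cnt_le f d η).trans ?_
      rw [Fintype.card_fin, pow_zero, mul_one]
      have h1 : |f x| ^ (1 - δ) ≤ η ^ (1 - δ) := Real.rpow_le_rpow hpos.le h (by linarith)
      have h2 : 0 < |f x| ^ (1 - δ) := Real.rpow_pos_of_pos hpos _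
      calc (1 : ℝ) = (|f x| ^ (1 - δ))⁻¹ * |f x| ^ (1 - δ) := (inv_mul_cancel₀ h2.ne').symm
        _ ≤ max 1 ((|f x| ^ (1 - δ))⁻¹) * η ^ (1 - δ) := mul_le_mul (le_max_right _ _) h1 h2.le (by positivity)
    · have h0 : cnt f d η = 0 := by
        unfold cnt
        rw [filter_false_of_mem]
        · simp
        · intro y _
          rw [Subsingleton.elim (fun j => ((y j : ℕ) : ℝ) / d) x]
          exact h
      rw [h0]
      positivity
  | m + 1, f, hf, ⟨x, hx⟩, δ, hδ, hδ1 => by
    obtain ⟨A, hA⟩ : ∃ A : (Fin m → ℝ) → ℝ, A = fun y => f (Fin.cons 0 y) := ⟨_, rfl⟩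
    obtain ⟨B, hB⟩ : ∃ B : (Fin m → ℝ) → ℝ, B = fun y => f (Fin.cons 1 y) - f (Fin.cons 0 y) :=
      ⟨_, rfl⟩
    have hcons : ∀ (c : ℝ) (y : Fin m → ℝ) (j : Fin m) (t : ℝ),
        (Fin.cons c (Function.update y j t) : Fin (m + 1) → ℝ) =
          Function.update (Fin.cons c y : Fin (m + 1) → ℝ) j.succ t := fun c y j t =>
      Fin.cons_update (α := fun _ => ℝ) c y j t
    have hAa : SepAff A := by
      intro y j
      obtain ⟨a, b, h⟩ := hf (Fin.cons 0 y) j.succ
      exact ⟨a, b, fun t => by rw [hA]; simp only; rw [hcons, h]⟩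
    have hBa : SepAff B := by
      intro y j
      obtain ⟨a, b, h⟩ := hf (Fin.cons 0 y) j.succ
      obtain ⟨a', b', h'⟩ := hf (Fin.cons 1 y) j.succ
      exact ⟨a' - a, b' - b, fun t => by
        rw [hB]
        simp only
        rw [hcons, hcons, h, h']
        ring⟩
    have hAB : ∀ t y, f (Fin.cons t y) = A y + t * B y := by
      intro t y
      obtain ⟨a, b, h⟩ := hf (Fin.cons 0 y) 0
      have h' : ∀ t : ℝ, f (Fin.cons t y) = a + t * b := by
        intro t
        rw [← h t, Fin.update_cons_zero]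
      rw [hA, hB]
      simp only
      rw [h' t, h' 0, h' 1]
      ring
    have hx' : f x = A (Fin.tail x) + x 0 * B (Fin.tail x) := by
      rw [← hAB, Fin.cons_self_tail]
    have hcast : ∀ (d : ℕ) (t : Fin (d + 1)) (y : Fin m → Fin (d + 1)),
        (fun j => ((((Fin.cons t y : Fin (m + 1) → Fin (d + 1)) j : Fin (d + 1)) : ℕ) : ℝ) / d) =
          (Fin.cons (((t : ℕ) : ℝ) / d) (fun j => ((y j : ℕ) : ℝ) / d) : Fin (m + 1) → ℝ) := by
      intro d t y
      funext j
      refine Fin.cases ?_ (fun j => ?_) j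
      · rw [Fin.cons_zero, Fin.cons_zero]
      · rw [Fin.cons_succ, Fin.cons_succ]
    by_cases hB0 : ∃ y, B y ≠ 0
    · obtain ⟨K, hK⟩ := exists_nat_ge (2 / δ)
      have hKpos : (0 : ℝ) < K := lt_of_lt_of_le (by positivity) hK
      have hK1 : 1 ≤ K := by exact_mod_cast hKpos
      have hKr : (1 : ℝ) ≤ K := by exact_mod_cast hK1
      have hKδ : 2 / (K : ℝ) ≤ δ := by
        rw [div_le_iff₀ hKpos]
        rw [div_le_iff₀ hδ] at hK
        linarith
      have hinv : (0 : ℝ) < 1 / K := by positivity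
      have hinv1 : 1 / (K : ℝ) ≤ 1 := by
        rw [div_le_one hKpos]
        exact hKr
      obtain ⟨C, hC1, hC⟩ := rate_fin m B hBa hB0 (1 / K) hinv hinv1
      refine ⟨3 * (C + K * C + 1), by nlinarith [mul_nonneg hKpos.le (by linarith : (0 : ℝ) ≤ C)],
        fun d hd η hη => ?_⟩
      have hd' : (0 : ℝ) < d := by exact_mod_cast hd
      have hη0 : 0 < η := by
        by_contra hcon
        push Not at hcon
        nlinarith
      rcases le_or_gt η 1 with hη1 | hη1
      swap
      · refine (cnt_le f d η).trans ?_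
        rw [Fintype.card_fin]
        have h1 : 1 ≤ η ^ (1 - δ) := Real.one_le_rpow hη1.le (by linarith)
        have h2 : 1 ≤ 3 * (C + K * C + 1) := by nlinarith [mul_nonneg hKpos.le (by linarith : (0 : ℝ) ≤ C)]
        have h3 : (0 : ℝ) ≤ ((d : ℝ) + 1) ^ (m + 1) := by positivity
        calc ((d : ℝ) + 1) ^ (m + 1) = 1 * ((d : ℝ) + 1) ^ (m + 1) := (one_mul _).symm
          _ ≤ 3 * (C + K * C + 1) * η ^ (1 - δ) * (d + 1) ^ (m + 1) := by
            refine mul_le_mul_of_nonneg_right ?_ h3
            nlinarith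
      · -- levels
        let ζ : ℕ → ℝ := fun k => η ^ (1 - (k : ℝ) / K)
        let w : ℕ → ℝ := fun k => if k = 0 then 1 else η ^ (((k : ℝ) - 1) / K)
        have hζη : ∀ k, η ≤ ζ k := by
          intro k
          have h1 : η ^ (1 : ℝ) ≤ η ^ (1 - (k : ℝ) / K) :=
            Real.rpow_le_rpow_of_exponent_ge hη0 hη1 (by
              have : (0 : ℝ) ≤ (k : ℝ) / K := by positivity
              linarith)
          rwa [Real.rpow_one] at h1
        have hζ0 : ∀ k, 0 < ζ k := fun k => lt_of_lt_of_le hη0 (hζη k)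
        have hw0 : ∀ k, 0 ≤ w k := by
          intro k
          simp only [w]
          split_ifs
          · exact zero_le_one
          · positivity
        have hone : ∀ y : Fin m → Fin (d + 1), ((univ.filter fun t : Fin (d + 1) =>
            |f (fun j => ((((Fin.cons t y : Fin (m + 1) → Fin (d + 1)) j : Fin (d + 1)) : ℕ) : ℝ) /
              d)| ≤ η).card : ℝ) ≤
            3 * (d + 1) * (∑ k ∈ range (K + 1), (if |B (fun j => ((y j : ℕ) : ℝ) / d)| ≤ ζ k then w k else 0) +
              η) := by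
          intro y
          have htriv : ((univ.filter fun t : Fin (d + 1) =>
            |f (fun j => ((((Fin.cons t y : Fin (m + 1) → Fin (d + 1)) j : Fin (d + 1)) : ℕ) : ℝ) /
              d)| ≤ η).card : ℝ) ≤ (d : ℝ) + 1 := by
            have h4 := card_filter_le (univ : Finset (Fin (d + 1))) (fun t : Fin (d + 1) =>
              |f (fun j => ((((Fin.cons t y : Fin (m + 1) → Fin (d + 1)) j : Fin (d + 1)) : ℕ) :
                ℝ) / d)| ≤ η)
            rw [card_univ, Fintype.card_fin] at h4
            exact_mod_cast h4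
          have hterm : ∀ k, 0 ≤ (if |B (fun j => ((y j : ℕ) : ℝ) / d)| ≤ ζ k then w k else 0) := by
            intro k
            split_ifs
            · exact hw0 k
            · exact le_rfl
          have hbig : ∀ k, ζ k < |B (fun j => ((y j : ℕ) : ℝ) / d)| → ((univ.filter fun t : Fin (d + 1) =>
            |f (fun j => ((((Fin.cons t y : Fin (m + 1) → Fin (d + 1)) j : Fin (d + 1)) : ℕ) : ℝ) /
              d)| ≤ η).card : ℝ) ≤ 2 * η * d / ζ k + 1 := by
            intro k hk
            have h3 := count_one d hd (a := A (fun j => ((y j : ℕ) : ℝ) / d)) (η := η) (hζ0 k) hη0.le hk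
            simp only [hcast, hAB]
            exact h3
          by_cases hex : ∃ k, k ∈ range (K + 1) ∧ |B (fun j => ((y j : ℕ) : ℝ) / d)| ≤ ζ k
          · classical
            obtain ⟨hk1, hk2⟩ := Nat.find_spec hex
            set k := Nat.find hex with hkdef
            have hle : (if |B (fun j => ((y j : ℕ) : ℝ) / d)| ≤ ζ k then w k else 0) ≤
                ∑ k ∈ range (K + 1), (if |B (fun j => ((y j : ℕ) : ℝ) / d)| ≤ ζ k then w k else 0) :=
              single_le_sum (f := fun k => (if |B (fun j => ((y j : ℕ) : ℝ) / d)| ≤ ζ k then w k else 0))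
                (fun k _ => hterm k) hk1
            rw [if_pos hk2] at hle
            have hgoal : 3 * ((d : ℝ) + 1) * w k ≤ 3 * (d + 1) *
                (∑ k ∈ range (K + 1), (if |B (fun j => ((y j : ℕ) : ℝ) / d)| ≤ ζ k then w k else 0) + η) :=
              mul_le_mul_of_nonneg_left (by linarith) (by positivity)
            refine le_trans ?_ hgoal
            rcases Nat.eq_zero_or_pos k with hk0 | hk0
            · have : w k = 1 := by
                simp only [w]
                rw [if_pos hk0]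
              rw [this]
              linarith
            · have hprev : ζ (k - 1) < |B (fun j => ((y j : ℕ) : ℝ) / d)| := by
                by_contra hcon
                push Not at hcon
                have := Nat.find_min hex (m := k - 1) (by omega)
                apply this
                refine ⟨?_, hcon⟩
                rw [mem_range] at hk1 ⊢
                omega
              refine (hbig _ hprev).trans ?_
              have hwk : w k = η ^ (((k : ℝ) - 1) / K) := by
                simp only [w]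
                rw [if_neg hk0.ne']
              have hcast' : ((k - 1 : ℕ) : ℝ) = (k : ℝ) - 1 := by
                rw [Nat.cast_sub hk0]
                simp
              have e1 : η / ζ (k - 1) = w k := by
                simp only [ζ]
                rw [hwk, hcast']
                have h5 : η ^ (1 - ((k : ℝ) - 1) / K) * η ^ (((k : ℝ) - 1) / K) = η := by
                  rw [← Real.rpow_add hη0]
                  simp
                rw [div_eq_iff (Real.rpow_pos_of_pos hη0 _).ne', mul_comm]
                exact h5.symm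
              have e2 : 2 * η * d / ζ (k - 1) = 2 * d * w k := by
                rw [← e1]
                ring
              have e3 : η ≤ w k := by
                rw [hwk]
                have h6 : η ^ (1 : ℝ) ≤ η ^ (((k : ℝ) - 1) / K) := by
                  refine Real.rpow_le_rpow_of_exponent_ge hη0 hη1 ?_
                  rw [div_le_one hKpos]
                  rw [mem_range] at hk1
                  have : (k : ℝ) ≤ K := by exact_mod_cast Nat.lt_succ_iff.1 hk1
                  linarith
                rwa [Real.rpow_one] at h6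
              rw [e2]
              have e4 : 1 ≤ d * w k := by
                calc (1 : ℝ) ≤ η * d := hη
                  _ = d * η := mul_comm _ _
                  _ ≤ d * w k := mul_le_mul_of_nonneg_left e3 hd'.le
              nlinarith [hw0 k]
          · push Not at hex
            have h7 := hex K (by simp)
            have e0 : ζ K = 1 := by
              simp only [ζ]
              rw [div_self hKpos.ne']
              simp
            refine (hbig K h7).trans ?_
            rw [e0, div_one]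
            have h8 : 0 ≤ ∑ k ∈ range (K + 1), (if |B (fun j => ((y j : ℕ) : ℝ) / d)| ≤ ζ k then w k else 0) :=
              sum_nonneg fun k _ => hterm k
            nlinarith
        have hsum : cnt f d η = ∑ y : Fin m → Fin (d + 1), ((univ.filter fun t : Fin (d + 1) =>
            |f (fun j => ((((Fin.cons t y : Fin (m + 1) → Fin (d + 1)) j : Fin (d + 1)) : ℕ) : ℝ) /
              d)| ≤ η).card : ℝ) := by
          unfold cnt
          rw [Pool.Agent.R869.Wd.card_cons]
        rw [hsum]
        refine (Finset.sum_le_sum fun y _ => hone y).trans ?_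
        rw [← Finset.mul_sum, Finset.sum_add_distrib, Finset.sum_comm, Finset.sum_const, card_univ,
          Fintype.card_fun, Fintype.card_fin, Fintype.card_fin, nsmul_eq_mul]
        have hlev : ∀ k ∈ range (K + 1), ∑ y : Fin m → Fin (d + 1),
            (if |B (fun j => ((y j : ℕ) : ℝ) / d)| ≤ ζ k then w k else 0) ≤
              C * η ^ (1 - δ) * (d + 1) ^ m := by
          intro k hk
          have h3 : ∑ y : Fin m → Fin (d + 1), (if |B (fun j => ((y j : ℕ) : ℝ) / d)| ≤ ζ k then w k else 0) =
              cnt B d (ζ k) * w k := by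
            rw [← Finset.sum_filter, Finset.sum_const, nsmul_eq_mul]
            rfl
          rw [h3]
          have h4 : 1 ≤ ζ k * d := hη.trans (mul_le_mul_of_nonneg_right (hζη k) hd'.le)
          have h5 := hC d hd (ζ k) h4
          have h6 : ζ k ^ (1 - 1 / (K : ℝ)) * w k ≤ η ^ (1 - δ) := by
            simp only [ζ]
            rw [← Real.rpow_mul hη0.le]
            rcases Nat.eq_zero_or_pos k with hk0 | hk0
            · have hw1 : w k = 1 := by
                simp only [w]
                rw [if_pos hk0]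
              rw [hw1, hk0, mul_one]
              refine Real.rpow_le_rpow_of_exponent_ge hη0 hη1 ?_
              push_cast
              have : 1 / (K : ℝ) ≤ 2 / K := by
                rw [div_le_div_iff_of_pos_right hKpos]
                norm_num
              have e9 : (1 - (0 : ℝ) / K) * (1 - 1 / K) = 1 - 1 / K := by
                rw [zero_div]
                ring
              rw [e9]
              linarith
            · have hwk : w k = η ^ (((k : ℝ) - 1) / K) := by
                simp only [w]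
                rw [if_neg hk0.ne']
              rw [hwk, ← Real.rpow_add hη0]
              refine Real.rpow_le_rpow_of_exponent_ge hη0 hη1 ?_
              have e9 : (1 - (k : ℝ) / K) * (1 - 1 / K) + ((k : ℝ) - 1) / K = 1 - 2 / K + k / K / K := by
                field_simp
                ring
              rw [e9]
              have : (0 : ℝ) ≤ k / K / K := by positivity
              linarith
          calc cnt B d (ζ k) * w k ≤ (C * ζ k ^ (1 - 1 / (K : ℝ)) * (d + 1) ^ m) * w k :=
                mul_le_mul_of_nonneg_right h5 (hw0 k)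
            _ = C * (ζ k ^ (1 - 1 / (K : ℝ)) * w k) * (d + 1) ^ m := by ring
            _ ≤ C * η ^ (1 - δ) * (d + 1) ^ m := by
                refine mul_le_mul_of_nonneg_right ?_ (by positivity)
                exact mul_le_mul_of_nonneg_left h6 (by linarith)
        have h10 : ∑ k ∈ range (K + 1), ∑ y : Fin m → Fin (d + 1),
            (if |B (fun j => ((y j : ℕ) : ℝ) / d)| ≤ ζ k then w k else 0) ≤
              ((K : ℝ) + 1) * (C * η ^ (1 - δ) * (d + 1) ^ m) := by
          refine (Finset.sum_le_card_nsmul _ _ _ hlev).trans (le_of_eq ?_)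
          rw [card_range, nsmul_eq_mul]
          push_cast
          ring
        have h11 : η ≤ η ^ (1 - δ) := by
          have h12 : η ^ (1 : ℝ) ≤ η ^ (1 - δ) := Real.rpow_le_rpow_of_exponent_ge hη0 hη1 (by linarith)
          rwa [Real.rpow_one] at h12
        have h13 : (((d + 1) ^ m : ℕ) : ℝ) = ((d : ℝ) + 1) ^ m := by push_cast; ring
        rw [h13]
        have h14 : ((d : ℝ) + 1) ^ m * η ≤ ((d : ℝ) + 1) ^ m * η ^ (1 - δ) :=
          mul_le_mul_of_nonneg_left h11 (by positivity)
        calc 3 * ((d : ℝ) + 1) * (_ + ((d : ℝ) + 1) ^ m * η)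
            ≤ 3 * ((d : ℝ) + 1) * (((K : ℝ) + 1) * (C * η ^ (1 - δ) * (d + 1) ^ m) +
                ((d : ℝ) + 1) ^ m * η ^ (1 - δ)) :=
              mul_le_mul_of_nonneg_left (add_le_add h10 h14) (by positivity)
          _ = 3 * (C + K * C + 1) * η ^ (1 - δ) * (d + 1) ^ (m + 1) := by ring
    · push Not at hB0
      have hA0 : ∃ y, A y ≠ 0 := ⟨Fin.tail x, fun h => hx (by rw [hx', h, hB0, mul_zero, add_zero])⟩
      obtain ⟨C, hC1, hC⟩ := rate_fin m A hAa hA0 δ hδ hδ1
      refine ⟨C, hC1, fun d hd η hη => ?_⟩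
      have hsum : cnt f d η = ∑ y : Fin m → Fin (d + 1), ((univ.filter fun t : Fin (d + 1) =>
          |f (fun j => ((((Fin.cons t y : Fin (m + 1) → Fin (d + 1)) j : Fin (d + 1)) : ℕ) : ℝ) /
            d)| ≤ η).card : ℝ) := by
        unfold cnt
        rw [Pool.Agent.R869.Wd.card_cons]
      rw [hsum]
      simp only [hcast, hAB, hB0, mul_zero, add_zero]
      have h2 : ∀ y : Fin m → Fin (d + 1), ((univ.filter fun _t : Fin (d + 1) =>
          |A (fun j => ((y j : ℕ) : ℝ) / d)| ≤ η).card : ℝ) =
          (if |A (fun j => ((y j : ℕ) : ℝ) / d)| ≤ η then ((d : ℝ) + 1) else 0) := by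
        intro y
        split_ifs with h
        · rw [filter_true_of_mem fun _ _ => h, card_univ, Fintype.card_fin]
          push_cast
          rfl
        · rw [filter_false_of_mem fun _ _ => h, card_empty, Nat.cast_zero]
      rw [Finset.sum_congr rfl fun y _ => h2 y, ← Finset.sum_filter, Finset.sum_const, nsmul_eq_mul]
      have h4 := mul_le_mul_of_nonneg_right (hC d hd η hη) (by positivity : (0 : ℝ) ≤ d + 1)
      refine h4.trans (le_of_eq ?_)
      ring

theorem rate_type {κ : Type} [Fintype κ] [DecidableEq κ] (f : (κ → ℝ) → ℝ) (hf : SepAff f)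
    (hf0 : ∃ x, f x ≠ 0) {δ : ℝ} (hδ : 0 < δ) (hδ1 : δ ≤ 1) :
    ∃ C : ℝ, 1 ≤ C ∧ ∀ d : ℕ, 0 < d → ∀ η : ℝ, 1 ≤ η * d →
      cnt f d η ≤ C * η ^ (1 - δ) * (d + 1) ^ Fintype.card κ := by
  classical
  let e := Fintype.equivFin κ
  have hg : SepAff fun y : Fin (Fintype.card κ) → ℝ => f (fun j => y (e j)) := by
    intro y i
    obtain ⟨a, b, h⟩ := hf (fun j => y (e j)) (e.symm i)
    refine ⟨a, b, fun t => ?_⟩
    rw [← h t]
    refine congrArg f (funext fun j => ?_)
    by_cases hj : j = e.symm i
    · subst hj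
      simp
    · rw [Function.update_of_ne hj, Function.update_of_ne]
      rintro rfl
      exact hj (e.symm_apply_apply j).symm
  obtain ⟨x, hx⟩ := hf0
  obtain ⟨C, hC1, h⟩ := rate_fin _ _ hg ⟨fun i => x (e.symm i), by simpa using hx⟩ δ hδ hδ1
  refine ⟨C, hC1, fun d hd η hη => le_trans (le_of_eq ?_) (h d hd η hη)⟩
  unfold cnt
  norm_cast
  refine card_bij (fun x _ => fun i => x (e.symm i)) (fun x hx => ?_) (fun x _ y _ hxy => ?_)
    (fun y hy => ⟨fun j => y (e j), ?_, ?_⟩)
  · rw [mem_filter] at hx ⊢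
    refine ⟨mem_univ _, ?_⟩
    simpa using hx.2
  · funext j
    have := congrFun hxy (e j)
    simpa using this
  · rw [mem_filter] at hy ⊢
    exact ⟨mem_univ _, hy.2⟩
  · funext i
    simp

/-- finitely many functions -/
theorem rate_family {κ Θ : Type} [Fintype κ] [DecidableEq κ] [Fintype Θ]
    (f : Θ → (κ → ℝ) → ℝ) (hf : ∀ θ, SepAff (f θ)) {δ : ℝ} (hδ : 0 < δ) (hδ1 : δ ≤ 1) :
    ∃ C : ℝ, 1 ≤ C ∧ ∀ d : ℕ, 0 < d → ∀ η : ℝ, 1 ≤ η * d →
      (Set.ncard {x : κ → Fin (d + 1) | ∃ θ, (∃ z, f θ z ≠ 0) ∧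
        |f θ (fun j => ((x j : ℕ) : ℝ) / d)| ≤ η} : ℝ) ≤ C * η ^ (1 - δ) * (d + 1) ^ Fintype.card κ := by
  classical
  have h1 : ∀ θ, ∃ C : ℝ, 1 ≤ C ∧ ((∃ z, f θ z ≠ 0) → ∀ d : ℕ, 0 < d → ∀ η : ℝ, 1 ≤ η * d →
      cnt (f θ) d η ≤ C * η ^ (1 - δ) * (d + 1) ^ Fintype.card κ) := by
    intro θ
    by_cases h : ∃ z, f θ z ≠ 0
    · obtain ⟨C, hC1, hC⟩ := rate_type (f θ) (hf θ) h hδ hδ1
      exact ⟨C, hC1, fun _ => hC⟩
    · exact ⟨1, le_rfl, fun h' => absurd h' h⟩
  choose C hC1 hC using h1
  have hC0 : ∀ θ, 0 ≤ C θ := fun θ => by linarith [hC1 θ]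
  refine ⟨1 + ∑ θ, C θ, by linarith [Finset.sum_nonneg fun θ (_ : θ ∈ univ) => hC0 θ], fun d hd η hη => ?_⟩
  have hd' : (0 : ℝ) < d := by exact_mod_cast hd
  have hη0 : 0 < η := by
    by_contra hcon
    push Not at hcon
    nlinarith
  have h3 : {x : κ → Fin (d + 1) | ∃ θ, (∃ z, f θ z ≠ 0) ∧
        |f θ (fun j => ((x j : ℕ) : ℝ) / d)| ≤ η} ⊆
      ((univ.filter fun θ : Θ => ∃ z, f θ z ≠ 0).biUnion fun θ =>
        univ.filter fun x : κ → Fin (d + 1) =>
          |f θ (fun j => ((x j : ℕ) : ℝ) / d)| ≤ η : Finset (κ → Fin (d + 1))) := by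
    rintro x ⟨θ, h4, h5⟩
    rw [mem_coe, mem_biUnion]
    exact ⟨θ, mem_filter.2 ⟨mem_univ _, h4⟩, mem_filter.2 ⟨mem_univ _, h5⟩⟩
  have h4 := Set.ncard_le_ncard h3 (finite_toSet _)
  rw [Set.ncard_coe_finset] at h4
  have h5 : ((((univ.filter fun θ : Θ => ∃ z, f θ z ≠ 0).biUnion fun θ =>
        univ.filter fun x : κ → Fin (d + 1) =>
          |f θ (fun j => ((x j : ℕ) : ℝ) / d)| ≤ η).card : ℕ) : ℝ) ≤
      ∑ θ ∈ univ.filter fun θ : Θ => ∃ z, f θ z ≠ 0, cnt (f θ) d η := by
    unfold cnt
    exact_mod_cast card_biUnion_le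
  have h6 : ∑ θ ∈ univ.filter fun θ : Θ => ∃ z, f θ z ≠ 0, cnt (f θ) d η ≤
      ∑ θ : Θ, C θ * η ^ (1 - δ) * ((d : ℝ) + 1) ^ Fintype.card κ := by
    refine (sum_le_sum fun θ hθ => hC θ (mem_filter.1 hθ).2 d hd η hη).trans ?_
    refine sum_le_sum_of_subset_of_nonneg (filter_subset _ _) fun θ _ _ => ?_
    have := hC0 θ
    positivity
  have h7 : ∑ θ : Θ, C θ * η ^ (1 - δ) * ((d : ℝ) + 1) ^ Fintype.card κ =
      (∑ θ, C θ) * η ^ (1 - δ) * ((d : ℝ) + 1) ^ Fintype.card κ := by
    rw [Finset.sum_mul, Finset.sum_mul]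
  have h8 : (Set.ncard {x : κ → Fin (d + 1) | ∃ θ, (∃ z, f θ z ≠ 0) ∧
        |f θ (fun j => ((x j : ℕ) : ℝ) / d)| ≤ η} : ℝ) ≤
      ((((univ.filter fun θ : Θ => ∃ z, f θ z ≠ 0).biUnion fun θ =>
        univ.filter fun x : κ → Fin (d + 1) =>
          |f θ (fun j => ((x j : ℕ) : ℝ) / d)| ≤ η).card : ℕ) : ℝ) := by
    exact_mod_cast h4
  refine h8.trans (h5.trans (h6.trans ?_))
  rw [h7]
  refine mul_le_mul_of_nonneg_right ?_ (by positivity)
  exact mul_le_mul_of_nonneg_right (by linarith) (by positivity)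

end Pool.Agent.L5helper62.MC
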