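import Pool.Agent.R869.SDens2
import Pool.Agent.L5helper62.MC.Rate

/-!
Tuples of exponent vectors whose determinants are zero for all tuples or large.
-/

set_option autoImplicit false

namespace Pool.Agent.L5helper62.MC

open Finset Pool.Agent.R869.Wd

variable {n s : ℕ}

/-- The determinant of the `n` vectors of the first `n` coordinates of the differences of the exponent
vectors with the numbers `p l` and `q l`. The exponent vectors are the `a i` (with the number
`Sum.inl i`) and those of the powers `x_j ^ d` (with the number `Sum.inr j`). -/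
noncomputable def minor (d : ℕ) (a : Fin s → (Fin (n + 1) →₀ ℕ))
    (p q : Fin n → Fin s ⊕ Fin (n + 1)) : ℤ :=
  (Matrix.of fun l j : Fin n => ((expo d a (p l) j.castSucc : ℕ) : ℤ) -
    ((expo d a (q l) j.castSucc : ℕ) : ℤ)).det

/-- The determinant with the numbers `p` and `q` does not vanish for all tuples in `TuplesIn I`. -/
def Nonzero (I : Fin s → Finset (Fin (n + 1))) (p q : Fin n → Fin s ⊕ Fin (n + 1)) : Prop :=
  ∃ (d : ℕ) (a : Fin s → (Fin (n + 1) →₀ ℕ)), 0 < d ∧ a ∈ TuplesIn I d ∧ minor d a p q ≠ 0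

/-- All the variables of `I i` occur in the `i`-th monomial, and the determinants of the exponent
vectors are greater than `C d ^ (n - 1)` in absolute value, with the exception of those which are
zero for all tuples. -/
def Apart (I : Fin s → Finset (Fin (n + 1))) (C d : ℕ) (a : Fin s → (Fin (n + 1) →₀ ℕ)) : Prop :=
  (∀ i, ∀ j ∈ I i, a i j ≠ 0) ∧ ∀ p q : Fin n → Fin s ⊕ Fin (n + 1), Nonzero I p q →
    (C : ℤ) * (d : ℤ) ^ (n - 1) < |minor d a p q|

/-- The determinants of the exponent vectors are zero or greater than `C d ^ (n - 1)` in absolute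
value. -/
def Gaps (C d : ℕ) (a : Fin s → (Fin (n + 1) →₀ ℕ)) : Prop :=
  ∀ p q : Fin n → Fin s ⊕ Fin (n + 1), minor d a p q = 0 ∨
    (C : ℤ) * (d : ℤ) ^ (n - 1) < |minor d a p q|

theorem minor_eq {d : ℕ} (hd : 0 < d) (a : Fin s → (Fin (n + 1) →₀ ℕ))
    (p q : Fin n → Fin s ⊕ Fin (n + 1)) :
    (minor d a p q : ℝ) = (d : ℝ) ^ n * (dz p q (sclI d a)).det := by
  have hmap : (Matrix.of fun l j : Fin n => ((expo d a (p l) j.castSucc : ℕ) : ℤ) -
      ((expo d a (q l) j.castSucc : ℕ) : ℤ)).map (fun z : ℤ => (z : ℝ)) =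
        (d : ℝ) • dz p q (sclI d a) := by
    ext l j
    rw [Matrix.map_apply, Matrix.smul_apply, smul_eq_mul]
    simp only [dz, Matrix.of_apply]
    push_cast
    rw [expo_vz hd, expo_vz hd]
    ring
  have h1 := Int.cast_det (R := ℝ) (Matrix.of fun l j : Fin n => ((expo d a (p l) j.castSucc : ℕ) : ℤ) -
    ((expo d a (q l) j.castSucc : ℕ) : ℤ))
  unfold minor
  rw [h1]
  have h2 : ((Matrix.of fun l j : Fin n => ((expo d a (p l) j.castSucc : ℕ) : ℤ) -
      ((expo d a (q l) j.castSucc : ℕ) : ℤ)).map (fun z : ℤ => (z : ℝ))).det =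
      (d : ℝ) ^ n * (dz p q (sclI d a)).det := by
    rw [hmap, Matrix.det_smul, Fintype.card_fin]
  exact h2

/-- the determinants which do not vanish for all points -/
theorem nonzero_of {I : Fin s → Finset (Fin (n + 1))} (hI : ∀ i, (I i).Nonempty)
    {p q : Fin n → Fin s ⊕ Fin (n + 1)} (h : ∃ z, Adm I z ∧ (dz p q z).det ≠ 0) : Nonzero I p q := by
  have h1 := almost_genericI I hI 0
  unfold AlmostAllIn at h1
  have h2 := (Filter.Tendsto.eventually_const_lt (show (1 / 2 : ℝ) < 1 by norm_num) h1).exists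
  obtain ⟨d, hd⟩ := h2
  have h3 : {a | a ∈ TuplesIn I d ∧ (WideT ∅ (fun _ : Unit => withPowers d a) 0 ∧ 0 < d ∧
      (∀ i, ∀ j ∈ I i, a i j ≠ 0) ∧ ∀ p q : Fin n → Fin s ⊕ Fin (n + 1),
        (∃ z, Adm I z ∧ (dz p q z).det ≠ 0) → (dz p q (sclI d a)).det ≠ 0)}.Nonempty := by
    by_contra hcon
    rw [Set.not_nonempty_iff_eq_empty] at hcon
    rw [hcon, Set.ncard_empty] at hd
    norm_num at hd
  obtain ⟨a, ha, -, hd0, -, hgen⟩ := h3
  refine ⟨d, a, hd0, ha, fun h0 => ?_⟩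
  have h4 := minor_eq hd0 a p q
  rw [h0, Int.cast_zero] at h4
  have hd' : (d : ℝ) ≠ 0 := by exact_mod_cast hd0.ne'
  exact hgen p q h ((mul_eq_zero.1 h4.symm).resolve_left (pow_ne_zero _ hd'))

theorem adm_of_nonzero {I : Fin s → Finset (Fin (n + 1))} {p q : Fin n → Fin s ⊕ Fin (n + 1)}
    (h : Nonzero I p q) : ∃ z, Adm I z ∧ (dz p q z).det ≠ 0 := by
  obtain ⟨d, a, hd, ha, h0⟩ := h
  refine ⟨sclI d a, adm_scl hd ha, fun h1 => h0 ?_⟩
  have h2 := minor_eq hd a p q
  rw [h1, mul_zero] at h2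
  exact_mod_cast h2

/-- the determinants of the scaled vectors -/
theorem apart_det {I : Fin s → Finset (Fin (n + 1))} (hn : 0 < n) {C d : ℕ} (hd : 0 < d)
    {a : Fin s → (Fin (n + 1) →₀ ℕ)} {p q : Fin n → Fin s ⊕ Fin (n + 1)} :
    (C : ℤ) * (d : ℤ) ^ (n - 1) < |minor d a p q| ↔ (C : ℝ) / d < |(dz p q (sclI d a)).det| := by
  have hd' : (0 : ℝ) < d := by exact_mod_cast hd
  have h1 := minor_eq hd a p q
  have h2 : (((C : ℤ) * (d : ℤ) ^ (n - 1) : ℤ) : ℝ) = (d : ℝ) ^ n * ((C : ℝ) / d) := by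
    obtain ⟨m, rfl⟩ : ∃ m, n = m + 1 := ⟨n - 1, by omega⟩
    push_cast
    rw [pow_succ]
    field_simp
  have h3 : ((|minor d a p q| : ℤ) : ℝ) = (d : ℝ) ^ n * |(dz p q (sclI d a)).det| := by
    push_cast
    rw [h1, abs_mul, abs_of_pos (pow_pos hd' n)]
  rw [← Int.cast_lt (R := ℝ), h2, h3]
  exact mul_lt_mul_iff_of_pos_left (pow_pos hd' n)

theorem gaps_of_apart {I : Fin s → Finset (Fin (n + 1))} {C d : ℕ} (hd : 0 < d)
    {a : Fin s → (Fin (n + 1) →₀ ℕ)} (ha : a ∈ TuplesIn I d) (h : Apart I C d a) : Gaps C d a := by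
  intro p q
  by_cases h0 : minor d a p q = 0
  · exact Or.inl h0
  · exact Or.inr (h.2 p q ⟨d, a, hd, ha, h0⟩)

/-- tuples with gaps are wide -/
theorem gaps_wide (hn : 0 < n) {N d : ℕ} (hd : 0 < d) {a : Fin s → (Fin (n + 1) →₀ ℕ)}
    (ha : ∀ i, ∑ j, a i j = d) (h : Gaps (n.factorial * N) d a) :
    WideT ∅ (fun _ : Unit => withPowers d a) N := by
  have hd' : (0 : ℝ) < d := by exact_mod_cast hd
  refine wide_of_typicalI (η := ((n.factorial * N : ℕ) : ℝ) / d) hd (le_of_eq ?_) ha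
    fun p q => ?_
  · rw [div_mul_cancel₀ _ hd'.ne']
    push_cast
    rfl
  · rcases h p q with h0 | h0
    · refine Or.inl ?_
      have h2 := minor_eq hd a p q
      rw [h0, Int.cast_zero] at h2
      exact (mul_eq_zero.1 h2.symm).resolve_left (pow_ne_zero _ hd'.ne')
    · refine Or.inr ?_
      rwa [← apart_det (I := fun _ => univ) hn hd]

/-- apart tuples are in general position -/
theorem apart_generic {I : Fin s → Finset (Fin (n + 1))} (hI : ∀ i, (I i).Nonempty) (hn : 0 < n)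
    {C d : ℕ} (hd : 0 < d) {a : Fin s → (Fin (n + 1) →₀ ℕ)} (h : Apart I C d a) :
    (∀ i, ∀ j ∈ I i, a i j ≠ 0) ∧ ∀ p q : Fin n → Fin s ⊕ Fin (n + 1),
        (∃ z, Adm I z ∧ (dz p q z).det ≠ 0) → (dz p q (sclI d a)).det ≠ 0 := by
  refine ⟨h.1, fun p q hpq h0 => ?_⟩
  have h1 := h.2 p q (nonzero_of hI hpq)
  rw [apart_det (I := I) hn hd, h0, abs_zero] at h1
  exact absurd h1 (not_lt.2 (by positivity))

theorem few_aux (I : Fin s → Finset (Fin (n + 1))) (hI : ∀ i, (I i).Nonempty) (hn : 0 < n)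
    (C : ℕ) {δ : ℝ} (hδ : 0 < δ) (hδ1 : δ ≤ 1) :
    ∃ M : ℝ, 0 ≤ M ∧ ∀ d : ℕ, 0 < d → ({a | a ∈ TuplesIn I d ∧ ¬ Apart I C d a}.ncard : ℝ) ≤
      M * (d : ℝ) ^ (δ - 1) * (TuplesIn I d).ncard := by
  classical
  choose piv hpiv using id hI
  let f : ((Fin n → Fin s ⊕ Fin (n + 1)) × (Fin n → Fin s ⊕ Fin (n + 1))) ⊕ (Fin s × Fin (n + 1)) →
      (Free I piv → ℝ) → ℝ :=
    Sum.elim (fun pq x => (dz pq.1 pq.2 (prm I piv x)).det) fun ij x => prm I piv x ij.1 ij.2
  obtain ⟨M, hM1, h1⟩ := rate_family f (by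
    rintro (⟨p, q⟩ | ⟨i, j⟩)
    · exact sepAff_dz p q
    · exact sepAff_prm i j) hδ hδ1
  obtain ⟨F, hF⟩ : ∃ F : ℝ, F = ∏ i, (((I i).card - 1).factorial : ℝ) := ⟨_, rfl⟩
  have hF0 : 0 < F := hF ▸ prod_pos fun i _ => by positivity
  obtain ⟨E, hE⟩ : ∃ E : ℝ, E = (C : ℝ) + 1 := ⟨_, rfl⟩
  have hE1 : 1 ≤ E := by
    rw [hE]
    have : (0 : ℝ) ≤ C := Nat.cast_nonneg _
    linarith
  refine ⟨M * E ^ (1 - δ) * F, by positivity, fun d hd => ?_⟩
  have hd' : (0 : ℝ) < d := by exact_mod_cast hd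
  have hd1 : (1 : ℝ) ≤ d := by exact_mod_cast hd
  have hη : 1 ≤ E / d * d := by
    rw [div_mul_cancel₀ _ hd'.ne']
    exact hE1
  have hη0 : 0 < E / d := by positivity
  have h2 := h1 d hd (E / d) hη
  rw [card_free I piv hpiv] at h2
  have hle : ∀ (a : Fin s → (Fin (n + 1) →₀ ℕ)), a ∈ TuplesIn I d → ∀ i j, a i j ≤ d :=
    fun a ha i j => by
      rw [← (ha i).2]
      exact single_le_sum (f := fun j => a i j) (fun _ _ => Nat.zero_le _) (mem_univ _)
  have h4 := Set.ncard_le_ncard_of_injOn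
    (s := {a | a ∈ TuplesIn I d ∧ ¬ Apart I C d a})
    (t := {x : Free I piv → Fin (d + 1) | ∃ θ, (∃ z, f θ z ≠ 0) ∧
      |f θ (fun j => ((x j : ℕ) : ℝ) / d)| ≤ E / d})
    (fun a c => Fin.ofNat (d + 1) (a c.1.1 c.1.2)) (by
      rintro a ⟨ha, hbad⟩
      have hscl : (fun c : Free I piv => (((Fin.ofNat (d + 1) (a c.1.1 c.1.2) :
          Fin (d + 1)) : ℕ) : ℝ) / d) = fun c : Free I piv => sclI d a c.1.1 c.1.2 := by
        funext c
        unfold sclI
        rw [Fin.val_ofNat, Nat.mod_eq_of_lt (Nat.lt_succ_of_le (hle a ha _ _))]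
      have hprm := adm_prm (piv := piv) (adm_scl hd ha)
      change ∃ θ, (∃ z, f θ z ≠ 0) ∧ _
      simp only [hscl]
      by_contra hcon
      push Not at hcon
      apply hbad
      have hpos : ∀ i, ∀ j ∈ I i, a i j ≠ 0 := by
        intro i j hj h0
        obtain ⟨z, hz, hz0⟩ := adm_ne fun i => ⟨piv i, hpiv i⟩
        have h5 := hcon (Sum.inr (i, j)) ⟨_, by
          change prm I piv _ i j ≠ 0
          rw [adm_prm (piv := piv) hz]
          exact hz0 i j hj⟩
        have h6 : f (Sum.inr (i, j)) (fun c : Free I piv => sclI d a c.1.1 c.1.2) = 0 := by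
          change prm I piv _ i j = 0
          rw [hprm]
          unfold sclI
          rw [h0]
          simp
        rw [h6, abs_zero] at h5
        exact absurd h5 (not_lt.2 hη0.le)
      have hf : ∀ p q, f (Sum.inl (p, q)) (fun c : Free I piv => sclI d a c.1.1 c.1.2) =
          (dz p q (sclI d a)).det := by
        intro p q
        change (dz p q (prm I piv _)).det = _
        rw [hprm]
      refine ⟨hpos, fun p q hpq => ?_⟩
      obtain ⟨z, hz, hz0⟩ := adm_of_nonzero hpq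
      have h5 := hcon (Sum.inl (p, q)) ⟨_, by
        change (dz p q (prm I piv _)).det ≠ 0
        rw [adm_prm (piv := piv) hz]
        exact hz0⟩
      rw [hf] at h5
      rw [apart_det (I := I) hn hd]
      refine lt_trans ?_ h5
      exact div_lt_div_of_pos_right (by rw [hE]; linarith) hd')
    (by
      rintro a ⟨ha, -⟩ b ⟨hb, -⟩ hab
      have h5 : ∀ c : Free I piv, a c.1.1 c.1.2 = b c.1.1 c.1.2 := by
        intro c
        have h6 := congrArg Fin.val (congrFun hab c)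
        simp only [Fin.val_ofNat] at h6
        rwa [Nat.mod_eq_of_lt (Nat.lt_succ_of_le (hle a ha _ _)),
          Nat.mod_eq_of_lt (Nat.lt_succ_of_le (hle b hb _ _))] at h6
      funext i
      have h8 : ∀ j, j ≠ piv i → a i j = b i j := by
        intro j hj
        by_cases h : j ∈ I i
        · exact h5 ⟨(i, j), h, hj⟩
        · rw [Finsupp.notMem_support_iff.1 fun h' => h ((ha i).1 h'),
            Finsupp.notMem_support_iff.1 fun h' => h ((hb i).1 h')]
      ext j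
      by_cases hj : j = piv i
      · subst hj
        have h6 : a i (piv i) + ∑ j ∈ univ.erase (piv i), a i j = d := by
          rw [add_sum_erase univ (fun j => a i j) (mem_univ (piv i))]
          exact (ha i).2
        have h7 : b i (piv i) + ∑ j ∈ univ.erase (piv i), b i j = d := by
          rw [add_sum_erase univ (fun j => b i j) (mem_univ (piv i))]
          exact (hb i).2
        have h9 : ∑ j ∈ univ.erase (piv i), a i j = ∑ j ∈ univ.erase (piv i), b i j :=
          sum_congr rfl fun j hj => h8 j (ne_of_mem_erase hj)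
        omega
      · exact h8 j hj)
    (Set.toFinite _)
  have h5 : ({a | a ∈ TuplesIn I d ∧ ¬ Apart I C d a}.ncard : ℝ) ≤
      M * (E / d) ^ (1 - δ) * (d + 1) ^ fdim I := by
    refine le_trans ?_ h2
    exact_mod_cast h4
  refine h5.trans ?_
  have hge := tuplesIn_ge I hI d
  rw [← hF, div_le_iff₀ hF0] at hge
  have h6 : (E / d : ℝ) ^ (1 - δ) = E ^ (1 - δ) * (d : ℝ) ^ (δ - 1) := by
    rw [Real.div_rpow (by linarith) hd'.le, div_eq_mul_inv, ← Real.rpow_neg hd'.le]
    congr 2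
    ring
  rw [h6]
  have h7 : 0 ≤ M * (E ^ (1 - δ) * (d : ℝ) ^ (δ - 1)) := by positivity
  calc M * (E ^ (1 - δ) * (d : ℝ) ^ (δ - 1)) * ((d : ℝ) + 1) ^ fdim I
      ≤ M * (E ^ (1 - δ) * (d : ℝ) ^ (δ - 1)) * ((TuplesIn I d).ncard * F) :=
        mul_le_mul_of_nonneg_left hge h7
    _ = M * E ^ (1 - δ) * F * (d : ℝ) ^ (δ - 1) * (TuplesIn I d).ncard := by ring

/-- **The number of the tuples which are not apart.** -/
theorem few_not_apart (I : Fin s → Finset (Fin (n + 1))) (hI : ∀ i, (I i).Nonempty) (hn : 0 < n)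
    (C : ℕ) {δ : ℝ} (hδ : 0 < δ) :
    ∃ M : ℝ, ∀ d : ℕ, 0 < d → ({a | a ∈ TuplesIn I d ∧ ¬ Apart I C d a}.ncard : ℝ) ≤
      M * (d : ℝ) ^ (δ - 1) * (TuplesIn I d).ncard := by
  obtain ⟨M, hM0, hM⟩ := few_aux I hI hn C (δ := min δ 1) (lt_min hδ one_pos) (min_le_right _ _)
  refine ⟨M, fun d hd => (hM d hd).trans ?_⟩
  have hd1 : (1 : ℝ) ≤ d := by exact_mod_cast hd
  refine mul_le_mul_of_nonneg_right ?_ (Nat.cast_nonneg _)
  refine mul_le_mul_of_nonneg_left ?_ hM0
  exact Real.rpow_le_rpow_of_exponent_le hd1 (by linarith [min_le_left δ 1])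

theorem smul_mem {I : Fin s → Finset (Fin (n + 1))} {d : ℕ} (k : ℕ) {a : Fin s → (Fin (n + 1) →₀ ℕ)}
    (ha : a ∈ TuplesIn I d) : (fun i => k • a i) ∈ TuplesIn I (k * d) := by
  refine fun i => ⟨Finsupp.support_smul.trans (ha i).1, ?_⟩
  simp only [Finsupp.smul_apply, smul_eq_mul]
  rw [← mul_sum, (ha i).2]

theorem expo_smul (k d : ℕ) (a : Fin s → (Fin (n + 1) →₀ ℕ)) (p : Fin s ⊕ Fin (n + 1))
    (j : Fin (n + 1)) : expo (k * d) (fun i => k • a i) p j = k * expo d a p j := by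
  rcases p with i | l
  · simp [expo]
  · simp only [expo, Sum.elim_inr]
    by_cases h : j = l
    · subst h
      simp
    · rw [Finsupp.single_eq_of_ne h, Finsupp.single_eq_of_ne h, mul_zero]

/-- multiples are wide -/
theorem wide_smul {N k d : ℕ} (hk : N ≤ k) (a : Fin s → (Fin (n + 1) →₀ ℕ)) :
    WideT ∅ (fun _ : Unit => withPowers (k * d) (fun i => k • a i)) N := by
  intro I r e α β _ hr hmem hp u hu _
  choose P hP using fun l => mem_withPowers.1 (hmem l).1
  choose Q hQ using fun l => mem_withPowers.1 (hmem l).2.1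
  have hw : ∀ (p : Fin s ⊕ Fin (n + 1)),
      wgt u (expo (k * d) (fun i => k • a i) p) = k * wgt u (expo d a p) := by
    intro p
    unfold wgt
    rw [mul_sum]
    refine sum_congr rfl fun j _ => ?_
    rw [expo_smul]
    push_cast
    ring
  have h1 : ∀ l, |wgt u (α l) - wgt u (β l)| =
      k * |wgt u (expo d a (P l)) - wgt u (expo d a (Q l))| := by
    intro l
    rw [← hP l, ← hQ l, hw, hw, ← mul_sub, abs_mul, Nat.abs_cast]
  have h2 := hp u hu
  rw [sum_congr rfl fun l _ => h1 l, ← mul_sum] at h2 ⊢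
  have h3 : 0 < ∑ l, |wgt u (expo d a (P l)) - wgt u (expo d a (Q l))| := by
    by_contra hcon
    push Not at hcon
    have h4 : (k : ℤ) * ∑ l, |wgt u (expo d a (P l)) - wgt u (expo d a (Q l))| ≤ 0 :=
      mul_nonpos_of_nonneg_of_nonpos (by positivity) hcon
    exact absurd h2 (not_lt.2 h4)
  have h5 : (N : ℤ) ≤ k := by exact_mod_cast hk
  have h6 : (0 : ℤ) ≤ k := by positivity
  nlinarith

theorem scl_smul {k d : ℕ} (hk : 0 < k) (a : Fin s → (Fin (n + 1) →₀ ℕ)) :
    sclI (k * d) (fun i => k • a i) = sclI d a := by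
  have hk' : (k : ℝ) ≠ 0 := by exact_mod_cast hk.ne'
  funext i j
  unfold sclI
  simp only [Finsupp.smul_apply, smul_eq_mul]
  push_cast
  exact mul_div_mul_left _ _ hk'

/-- multiples of tuples in general position -/
theorem smul_generic {I : Fin s → Finset (Fin (n + 1))} (hI : ∀ i, (I i).Nonempty) {k d : ℕ}
    (hk : 0 < k) (hd : 0 < d) {a : Fin s → (Fin (n + 1) →₀ ℕ)} (h : Apart I 0 d a) :
    (∀ i, ∀ j ∈ I i, (k • a i) j ≠ 0) ∧ ∀ p q : Fin n → Fin s ⊕ Fin (n + 1),
      (∃ z, Adm I z ∧ (dz p q z).det ≠ 0) → (dz p q (sclI (k * d) (fun i => k • a i))).det ≠ 0 := by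
  refine ⟨fun i j hj => ?_, fun p q hpq => ?_⟩
  · simp only [Finsupp.smul_apply, smul_eq_mul]
    exact mul_ne_zero hk.ne' (h.1 i j hj)
  · rw [scl_smul hk]
    intro h0
    have h1 := h.2 p q (nonzero_of hI hpq)
    have h2 := minor_eq hd a p q
    rw [h0, mul_zero] at h2
    have h3 : minor d a p q = 0 := by exact_mod_cast h2
    rw [h3] at h1
    simp at h1

end Pool.Agent.L5helper62.MC
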