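import Mathlib.LinearAlgebra.Matrix.Determinant.Basic
import Mathlib.Tactic.Ring
import Mathlib.Tactic.Linarith

/-!
Determinants of differences of points, one of which is the origin.
-/

set_option autoImplicit false

namespace Pool.Agent.L5helper62.MC

open Finset

/-- the points and the origin -/
def pto {ι : Type} {n : ℕ} (v : ι → Fin (n + 1) → ℤ) (o : Option ι) (j : Fin (n + 1)) : ℤ :=
  o.elim 0 fun p => v p j

/-- one at the origin, zero elsewhere -/
def isO {ι : Type} (o : Option ι) : ℤ := o.elim 1 fun _ => 0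

theorem pto_getD {ι : Type} {n : ℕ} (v : ι → Fin (n + 1) → ℤ) (p0 : ι) (o : Option ι)
    (j : Fin (n + 1)) : pto v o j = v (o.getD p0) j - isO o * v p0 j := by
  cases o with
  | none => simp [pto, isO]
  | some p => simp [pto, isO]

theorem pto_sum {ι : Type} {n : ℕ} {v : ι → Fin (n + 1) → ℤ} {d : ℤ} (hv : ∀ p, ∑ j, v p j = d)
    (o : Option ι) : ∑ j, pto v o j = d * (1 - isO o) := by
  cases o with
  | none => simp [pto, isO]
  | some p => simp [pto, isO, hv]

/-- the determinant vanishes if the rows have the sum zero -/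
theorem det_zero {ι : Type} {n : ℕ} {v : ι → Fin (n + 1) → ℤ} {d : ℤ} (hv : ∀ p, ∑ j, v p j = d)
    {P Q : Fin (n + 1) → Option ι} (h : ∀ l, isO (P l) = isO (Q l)) :
    (Matrix.of fun l j : Fin (n + 1) => pto v (P l) j - pto v (Q l) j).det = 0 := by
  have h1 := Matrix.det_updateCol_sum (Matrix.of fun l j : Fin (n + 1) => pto v (P l) j - pto v (Q l) j)
    (Fin.last n) (fun _ => 1)
  rw [one_smul] at h1
  rw [← h1]
  refine Matrix.det_eq_zero_of_column_eq_zero (Fin.last n) fun l => ?_
  rw [Matrix.updateCol_self]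
  simp only [Matrix.of_apply, one_smul]
  rw [sum_sub_distrib, pto_sum hv, pto_sum hv, h l, sub_self]

/-- the determinant in the other case -/
theorem det_red {ι : Type} {n : ℕ} {v : ι → Fin (n + 1) → ℤ} {d : ℤ} (hv : ∀ p, ∑ j, v p j = d)
    {P Q : Fin (n + 1) → Option ι} {l0 : Fin (n + 1)} {p0 : ι}
    (h : (P l0 = some p0 ∧ Q l0 = none) ∨ (P l0 = none ∧ Q l0 = some p0)) :
    |(Matrix.of fun l j : Fin (n + 1) => pto v (P l) j - pto v (Q l) j).det| = |d| *
      |(Matrix.of fun l j : Fin n => v ((P (l0.succAbove l)).getD p0) j.castSucc -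
        v ((Q (l0.succAbove l)).getD p0) j.castSucc).det| := by
  obtain ⟨c, hc⟩ : ∃ c : Fin (n + 1) → ℤ, ∀ l, c l = isO (Q l) - isO (P l) := ⟨_, fun _ => rfl⟩
  have hc0 : c l0 * c l0 = 1 := by
    rw [hc]
    rcases h with ⟨h1, h2⟩ | ⟨h1, h2⟩ <;> simp [h1, h2, isO]
  have hpq : (P l0).getD p0 = (Q l0).getD p0 := by
    rcases h with ⟨h1, h2⟩ | ⟨h1, h2⟩ <;> simp [h1, h2]
  let B : Matrix (Fin (n + 1)) (Fin (n + 1)) ℤ := Matrix.of fun l j =>
    if l = l0 then c l0 * v p0 j else v ((P l).getD p0) j - v ((Q l).getD p0) j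
  have hAB : (Matrix.of fun l j : Fin (n + 1) => pto v (P l) j - pto v (Q l) j).det = B.det := by
    refine Matrix.det_eq_of_forall_row_eq_smul_add_const (fun l => if l = l0 then 0 else c l * c l0)
      l0 (if_pos rfl) fun l j => ?_
    simp only [B, Matrix.of_apply]
    rw [pto_getD v p0, pto_getD v p0]
    by_cases hl : l = l0
    · subst hl
      rw [if_pos rfl, if_pos rfl, hpq, hc]
      ring
    · rw [if_neg hl, if_neg hl, if_pos trivial]
      have e : c l * c l0 * (c l0 * v p0 j) = c l * v p0 j := by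
        calc c l * c l0 * (c l0 * v p0 j) = c l * (c l0 * c l0) * v p0 j := by ring
          _ = c l * v p0 j := by rw [hc0, mul_one]
      rw [e, hc]
      ring
  have h1 := Matrix.det_updateCol_sum B (Fin.last n) (fun _ => 1)
  rw [one_smul] at h1
  have hsum : ∀ l, ∑ j, B l j = if l = l0 then c l0 * d else 0 := by
    intro l
    simp only [B, Matrix.of_apply]
    by_cases hl : l = l0
    · subst hl
      simp only [if_true]
      rw [← mul_sum, hv]
    · simp only [if_neg hl]
      rw [sum_sub_distrib, hv, hv, sub_self]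
  have h2 : B.det = (-1) ^ ((l0 : ℕ) + ((Fin.last n : Fin (n + 1)) : ℕ)) * (c l0 * d) *
      (Matrix.of fun l j : Fin n => v ((P (l0.succAbove l)).getD p0) j.castSucc -
        v ((Q (l0.succAbove l)).getD p0) j.castSucc).det := by
    rw [← h1, Matrix.det_succ_column _ (Fin.last n), Finset.sum_eq_single l0]
    · rw [Matrix.updateCol_self]
      simp only [one_smul]
      rw [hsum, if_pos rfl]
      congr 2
      ext l j
      rw [Matrix.submatrix_apply, Fin.succAbove_last, Matrix.updateCol_ne (Fin.castSucc_lt_last j).ne]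
      simp only [B, Matrix.of_apply]
      rw [if_neg (Fin.succAbove_ne l0 l)]
    · intro l _ hl
      rw [Matrix.updateCol_self]
      simp only [one_smul]
      rw [hsum, if_neg hl, mul_zero, zero_mul]
    · exact fun h => absurd (mem_univ _) h
  rw [hAB, h2, abs_mul, abs_mul, abs_mul, abs_pow, abs_neg, abs_one, one_pow, one_mul]
  have h3 : |c l0| = 1 := by
    have h4 : |c l0| * |c l0| = 1 := by rw [← abs_mul, hc0, abs_one]
    nlinarith [abs_nonneg (c l0)]
  rw [h3, one_mul]

end Pool.Agent.L5helper62.MC
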