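import Pool.Agent.R869.XLift
import Pool.Agent.L5helper62.MC.Cri1
import Pool.Agent.L5helper62.MC.DetL

/-!
Apart tuples with additional variables.
-/

set_option autoImplicit false

namespace Pool.Agent.L5helper62.MC

open Finset Pool.Agent.R869.Wd

variable {n s : ℕ}

/-- the points without the additional one -/
def tau (p : Fin s ⊕ Fin (n + 1 + 1)) : Option (Fin s ⊕ Fin (n + 1)) :=
  Sum.elim (fun i => some (Sum.inl i))
    (fun x => if h : x = Fin.last (n + 1) then none else some (Sum.inr (x.castPred h))) p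

theorem emb_castSucc (j : Fin (n + 1)) : emb n 1 j = (j.castSucc : Fin (n + 1 + 1)) := Fin.ext rfl

theorem expo_lift (d : ℕ) (a : Fin s → (Fin (n + 1) →₀ ℕ)) (p : Fin s ⊕ Fin (n + 1 + 1))
    (j : Fin (n + 1)) : ((expo d (liftA 1 a) p j.castSucc : ℕ) : ℤ) =
      pto (fun p j => ((expo d a p j : ℕ) : ℤ)) (tau p) j := by
  rcases p with i | x
  · change (((a i).embDomain (emb n 1) j.castSucc : ℕ) : ℤ) = ((a i j : ℕ) : ℤ)
    rw [← emb_castSucc, Finsupp.embDomain_apply_self]
  · unfold tau
    simp only [Sum.elim_inr]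
    by_cases h : x = Fin.last (n + 1)
    · rw [dif_pos h]
      subst h
      change ((Finsupp.single (Fin.last (n + 1)) d (j.castSucc) : ℕ) : ℤ) = 0
      rw [Finsupp.single_eq_of_ne (Fin.castSucc_lt_last j).ne]
      rfl
    · rw [dif_neg h]
      change ((Finsupp.single x d (j.castSucc) : ℕ) : ℤ) =
        ((Finsupp.single (x.castPred h) d j : ℕ) : ℤ)
      by_cases hj : x = j.castSucc
      · subst hj
        simp
      · rw [Finsupp.single_eq_of_ne (Ne.symm hj), Finsupp.single_eq_of_ne]
        rintro rfl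
        exact hj (Fin.castSucc_castPred x h).symm

theorem expo_sum {d : ℕ} {a : Fin s → (Fin (n + 1) →₀ ℕ)} (ha : ∀ i, ∑ j, a i j = d)
    (p : Fin s ⊕ Fin (n + 1)) : ∑ j, ((expo d a p j : ℕ) : ℤ) = d := by
  have h : ∑ j, expo d a p j = d := by
    rcases p with i | l
    · exact ha i
    · simp [expo, Finsupp.single_apply]
  exact_mod_cast h

/-- the determinants with an additional variable -/
theorem minor_lift (p q : Fin (n + 1) → Fin s ⊕ Fin (n + 1 + 1)) :
    (∀ (d : ℕ) (a : Fin s → (Fin (n + 1) →₀ ℕ)), (∀ i, ∑ j, a i j = d) →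
      minor d (liftA 1 a) p q = 0) ∨
    ∃ p' q' : Fin n → Fin s ⊕ Fin (n + 1), ∀ (d : ℕ) (a : Fin s → (Fin (n + 1) →₀ ℕ)),
      (∀ i, ∑ j, a i j = d) → |minor d (liftA 1 a) p q| = d * |minor d a p' q'| := by
  have h0 : ∀ (d : ℕ) (a : Fin s → (Fin (n + 1) →₀ ℕ)), minor d (liftA 1 a) p q =
      (Matrix.of fun l j : Fin (n + 1) => pto (fun p j => ((expo d a p j : ℕ) : ℤ)) (tau (p l)) j -
        pto (fun p j => ((expo d a p j : ℕ) : ℤ)) (tau (q l)) j).det := by
    intro d a
    unfold minor
    congr 1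
    ext l j
    rw [Matrix.of_apply, Matrix.of_apply, expo_lift, expo_lift]
  by_cases h : ∀ l, isO (tau (p l)) = isO (tau (q l))
  · refine Or.inl fun d a ha => ?_
    rw [h0]
    exact det_zero (expo_sum ha) h
  · push Not at h
    obtain ⟨l0, hl0⟩ := h
    refine Or.inr ?_
    obtain ⟨p0, hp0⟩ : ∃ p0, (tau (p l0) = some p0 ∧ tau (q l0) = none) ∨
        (tau (p l0) = none ∧ tau (q l0) = some p0) := by
      cases hp : tau (p l0) with
      | none =>
        cases hq : tau (q l0) with
        | none => exact absurd (by rw [hp, hq]) hl0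
        | some y => exact ⟨y, Or.inr ⟨rfl, rfl⟩⟩
      | some x =>
        cases hq : tau (q l0) with
        | none => exact ⟨x, Or.inl ⟨rfl, rfl⟩⟩
        | some y => exact absurd (by rw [hp, hq]; rfl) hl0
    refine ⟨fun l => (tau (p (l0.succAbove l))).getD p0, fun l => (tau (q (l0.succAbove l))).getD p0,
      fun d a ha => ?_⟩
    rw [h0, det_red (expo_sum ha) hp0, Nat.abs_cast]
    rfl

/-- one additional variable -/
theorem apart_lift_one {I : Fin s → Finset (Fin (n + 1))} (hn : 0 < n) {C d : ℕ} (hd : 0 < d)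
    {a : Fin s → (Fin (n + 1) →₀ ℕ)} (ha : a ∈ TuplesIn I d) (h : Apart I C d a) :
    Apart (liftI 1 I) C d (liftA 1 a) := by
  have hdz : (0 : ℤ) < d := by exact_mod_cast hd
  refine ⟨fun i x hx => ?_, fun p q hpq => ?_⟩
  · obtain ⟨j, hj, rfl⟩ := Finset.mem_map.1 hx
    unfold liftA
    rw [Finsupp.embDomain_apply_self]
    exact h.1 i j hj
  · obtain ⟨d', a', hd', ha', h0⟩ := hpq
    obtain ⟨b, rfl⟩ := liftA_surj ha'
    rw [liftA_mem] at ha'
    rcases minor_lift (n := n) (s := s) p q with h1 | ⟨p', q', h1⟩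
    · exact absurd (h1 d' b fun i => (ha' i).2) h0
    · have h2 := h1 d' b fun i => (ha' i).2
      have h3 : minor d' b p' q' ≠ 0 := by
        intro h4
        rw [h4, abs_zero, mul_zero, abs_eq_zero] at h2
        exact h0 h2
      have h4 := h.2 p' q' ⟨d', b, hd', ha', h3⟩
      rw [h1 d a fun i => (ha i).2]
      have e : (C : ℤ) * (d : ℤ) ^ (n + 1 - 1) = d * ((C : ℤ) * (d : ℤ) ^ (n - 1)) := by
        obtain ⟨m, rfl⟩ : ∃ m, n = m + 1 := ⟨n - 1, by omega⟩
        simp only [Nat.add_sub_cancel]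
        rw [pow_succ]
        ring
      rw [e]
      exact mul_lt_mul_of_pos_left h4 hdz

/-- **Additional variables.** -/
theorem apart_lift {I : Fin s → Finset (Fin (n + 1))} (hn : 0 < n) {C d : ℕ} (hd : 0 < d)
    {a : Fin s → (Fin (n + 1) →₀ ℕ)} (ha : a ∈ TuplesIn I d) (h : Apart I C d a) :
    ∀ q : ℕ, Apart (liftI q I) C d (liftA q a)
  | 0 => by
    have e1 : liftI 0 I = I := by
      funext i
      unfold liftI
      have : emb n 0 = Function.Embedding.refl (Fin (n + 1)) := by
        ext j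
        rfl
      rw [this, Finset.map_refl]
    have e2 : liftA 0 a = a := by
      funext i
      unfold liftA
      have : emb n 0 = Function.Embedding.refl (Fin (n + 1)) := by
        ext j
        rfl
      rw [this, Finsupp.embDomain_refl]
      rfl
    rw [e1, e2]
    exact h
  | q + 1 => by
    have h1 := apart_lift hn hd ha h q
    have h2 := apart_lift_one (n := n + q) (by omega) hd (liftA_mem.2 ha) h1
    have e0 : (emb n q).trans (emb (n + q) 1) = emb n (q + 1) := by
      ext j
      rfl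
    have e1 : liftI 1 (liftI q I) = liftI (q + 1) I := by
      funext i
      unfold liftI
      rw [Finset.map_map, e0]
    have e2 : liftA 1 (liftA q a) = liftA (q + 1) a := by
      funext i
      unfold liftA
      rw [← e0, Finsupp.embDomain_trans_apply]
    rw [e1, e2] at h2
    exact h2

theorem sum_liftA (q : ℕ) {d : ℕ} {a : Fin s → (Fin (n + 1) →₀ ℕ)} (ha : ∀ i, ∑ j, a i j = d)
    (i : Fin s) : ∑ x, liftA q a i x = d := by
  unfold liftA
  rw [sum_embDomain]
  exact ha i

theorem gaps_lift_one {C d : ℕ} (hd : 0 < d) (hn : 0 < n) {a : Fin s → (Fin (n + 1) →₀ ℕ)}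
    (ha : ∀ i, ∑ j, a i j = d) (h : Gaps C d a) : Gaps C d (liftA 1 a) := by
  have hdz : (0 : ℤ) < d := by exact_mod_cast hd
  intro p q
  rcases minor_lift (n := n) (s := s) p q with h1 | ⟨p', q', h1⟩
  · exact Or.inl (h1 d a ha)
  · have h2 := h1 d a ha
    rcases h p' q' with h3 | h3
    · refine Or.inl ?_
      rw [h3, abs_zero, mul_zero, abs_eq_zero] at h2
      exact h2
    · refine Or.inr ?_
      rw [h2]
      have e : (C : ℤ) * (d : ℤ) ^ (n + 1 - 1) = d * ((C : ℤ) * (d : ℤ) ^ (n - 1)) := by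
        obtain ⟨m, rfl⟩ : ∃ m, n = m + 1 := ⟨n - 1, by omega⟩
        simp only [Nat.add_sub_cancel]
        rw [pow_succ]
        ring
      rw [e]
      exact mul_lt_mul_of_pos_left h3 hdz

theorem gaps_lift {C d : ℕ} (hd : 0 < d) (hn : 0 < n) {a : Fin s → (Fin (n + 1) →₀ ℕ)}
    (ha : ∀ i, ∑ j, a i j = d) (h : Gaps C d a) : ∀ q : ℕ, Gaps C d (liftA q a)
  | 0 => by
    have e2 : liftA 0 a = a := by
      funext i
      unfold liftA
      have : emb n 0 = Function.Embedding.refl (Fin (n + 1)) := by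
        ext j
        rfl
      rw [this, Finsupp.embDomain_refl]
      rfl
    rw [e2]
    exact h
  | q + 1 => by
    have h2 := gaps_lift_one (n := n + q) hd (by omega) (sum_liftA q ha) (gaps_lift hd hn ha h q)
    have e0 : (emb n q).trans (emb (n + q) 1) = emb n (q + 1) := by
      ext j
      rfl
    have e2 : liftA 1 (liftA q a) = liftA (q + 1) a := by
      funext i
      unfold liftA
      rw [← e0, Finsupp.embDomain_trans_apply]
    rw [e2] at h2
    exact h2

end Pool.Agent.L5helper62.MC
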