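import Pool.Agent.R869.SSix
import Pool.Agent.R869.XLift
import Pool.Agent.R869.WEx2
import Pool.Agent.L5helper62.MC.Cri1
import Pool.Agent.L5helper62.MC.Cri3

/-!
Apart tuples of exponent vectors are typical.
-/

set_option autoImplicit false

namespace Pool.Agent.L5helper62.MC

open Finset Pool.Agent.R869.Wd

/-- The number `n (s + n + 1) (s + n) (s + n - 1) / 2 + 1`. -/
def wd (n s : ℕ) : ℕ := n * ((s + n + 1) * ((s + n) * (s + n - 1) / 2)) + 1

theorem wd_eq (n s : ℕ) : wd n s = (s + (n + 1)) *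
    (n * Pool.Agent.R869.tri (s + (n + 1) - 1)) + 1 := by
  unfold wd
  rw [tri_choose]
  have e1 : s + (n + 1) - 1 = s + n := by omega
  have e2 : s + (n + 1) - 2 = s + n - 1 := by omega
  rw [e1, e2]
  congr 1
  ring

theorem wd_mono {n n' : ℕ} (h : n ≤ n') (s : ℕ) : wd n s ≤ wd n' s := by
  unfold wd
  refine Nat.add_le_add_right (Nat.mul_le_mul h (Nat.mul_le_mul (by omega)
    (Nat.div_le_div_right (Nat.mul_le_mul (by omega) (by omega))))) 1

variable {n s : ℕ}

theorem good_of {d : ℕ} {a : Fin s → (Fin (n + 1) →₀ ℕ)} (ha : ∀ i, ∑ j, a i j = d)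
    (h1 : WideT ∅ (fun _ : Unit => withPowers d a) (wd n s)) :
    ∃ s' N, Good (withPowers d a) s' N := by
  rw [wd_eq] at h1
  refine ⟨s + (n + 1), (s + (n + 1)) * (n * Pool.Agent.R869.tri (s + (n + 1) - 1)) + 1, ?_⟩
  exact { deg := ⟨d, deg_withPowers ha⟩
          pos := by omega
          card := card_withPowers d a
          wide := h1
          num := Nat.lt_succ_self _ }

theorem gaps_mono {C C' d : ℕ} (hC : C ≤ C') {a : Fin s → (Fin (n + 1) →₀ ℕ)}
    (h : Gaps C' d a) : Gaps C d a := fun p q => (h p q).imp id fun h1 => lt_of_le_of_lt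
  (mul_le_mul_of_nonneg_right (by exact_mod_cast hC) (by positivity)) h1

/-- tuples with gaps -/
theorem gaps_good (hn : 0 < n) {d : ℕ} (hd : 0 < d) {a : Fin s → (Fin (n + 1) →₀ ℕ)}
    (ha : ∀ i, ∑ j, a i j = d) (h : Gaps (n.factorial * wd n s) d a) :
    ∃ s' N, Good (withPowers d a) s' N := good_of ha (gaps_wide hn hd ha h)

/-- tuples with gaps and additional variables -/
theorem gaps_good_lift (hn : 0 < n) {q q' : ℕ} (hq : q' ≤ q) {d : ℕ} (hd : 0 < d)
    {a : Fin s → (Fin (n + 1) →₀ ℕ)} (ha : ∀ i, ∑ j, a i j = d)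
    (h : Gaps ((n + q).factorial * wd (n + q) s) d a) :
    ∃ s' N, Good (withPowers d (liftA q' a)) s' N :=
  gaps_good (n := n + q') (by omega) hd (sum_liftA q' ha) (gaps_lift hd hn ha (gaps_mono
    (Nat.mul_le_mul (Nat.factorial_le (by omega)) (wd_mono (by omega) s)) h) q')

theorem typI_of {I : Fin s → Finset (Fin (n + 1))} (hI : ∀ i, (I i).Nonempty)
    {d : ℕ} (hd : 0 < d) {a : Fin s → (Fin (n + 1) →₀ ℕ)} (ha : a ∈ TuplesIn I d)
    (h1 : WideT ∅ (fun _ : Unit => withPowers d a) (wd n s)) (h2 : ∀ i, ∀ j ∈ I i, a i j ≠ 0)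
    (h3 : ∀ p q : Fin n → Fin s ⊕ Fin (n + 1), (∃ z, Adm I z ∧ (dz p q z).det ≠ 0) →
      (dz p q (sclI d a)).det ≠ 0) : TypI I d a :=
  ⟨hI, ha, good_of (fun i => (ha i).2) h1, hd, h2, h3⟩

theorem apart_mono {I : Fin s → Finset (Fin (n + 1))} {C C' d : ℕ} (hC : C ≤ C')
    {a : Fin s → (Fin (n + 1) →₀ ℕ)} (h : Apart I C' d a) : Apart I C d a := by
  refine ⟨h.1, fun p q hpq => lt_of_le_of_lt ?_ (h.2 p q hpq)⟩
  exact mul_le_mul_of_nonneg_right (by exact_mod_cast hC) (by positivity)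

/-- apart tuples -/
theorem apart_typI {I : Fin s → Finset (Fin (n + 1))} (hI : ∀ i, (I i).Nonempty) (hn : 0 < n)
    {d : ℕ} (hd : 0 < d) {a : Fin s → (Fin (n + 1) →₀ ℕ)} (ha : a ∈ TuplesIn I d)
    (h : Apart I (n.factorial * wd n s) d a) : TypI I d a := by
  obtain ⟨h2, h3⟩ := apart_generic hI hn hd h
  exact typI_of hI hd ha (gaps_wide hn hd (fun i => (ha i).2) (gaps_of_apart hd ha h)) h2 h3

/-- multiples -/
theorem smul_typI {I : Fin s → Finset (Fin (n + 1))} (hI : ∀ i, (I i).Nonempty)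
    {k d : ℕ} (hk : wd n s ≤ k) (hd : 0 < d) {a : Fin s → (Fin (n + 1) →₀ ℕ)}
    (ha : a ∈ TuplesIn I d) (h : Apart I 0 d a) : TypI I (k * d) (fun i => k • a i) := by
  have hk0 : 0 < k := lt_of_lt_of_le (by unfold wd; omega) hk
  obtain ⟨h2, h3⟩ := smul_generic hI hk0 hd h
  exact typI_of hI (Nat.mul_pos hk0 hd) (smul_mem k ha) (wide_smul hk a) h2 h3

/-- apart tuples with additional variables -/
theorem apart_typI_lift {I : Fin s → Finset (Fin (n + 1))} (hI : ∀ i, (I i).Nonempty) (hn : 0 < n)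
    {q q' : ℕ} (hq : q' ≤ q) {d : ℕ} (hd : 0 < d) {a : Fin s → (Fin (n + 1) →₀ ℕ)}
    (ha : a ∈ TuplesIn I d) (h : Apart I ((n + q).factorial * wd (n + q) s) d a) :
    TypI (liftI q' I) d (liftA q' a) :=
  apart_typI (n := n + q') (liftI_nonempty hI) (by omega) hd (liftA_mem.2 ha)
    (apart_lift hn hd ha (apart_mono (Nat.mul_le_mul (Nat.factorial_le (by omega))
      (wd_mono (by omega) s)) h) q')

theorem liftA_smul (q k : ℕ) (a : Fin s → (Fin (n + 1) →₀ ℕ)) :
    liftA q (fun i => k • a i) = fun i => k • liftA q a i := by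
  funext i
  unfold liftA
  rw [Finsupp.embDomain_eq_mapDomain, Finsupp.embDomain_eq_mapDomain, Finsupp.mapDomain_smul]

/-- multiples with additional variables -/
theorem smul_typI_lift {I : Fin s → Finset (Fin (n + 1))} (hI : ∀ i, (I i).Nonempty) (hn : 0 < n)
    {q q' : ℕ} (hq : q' ≤ q) {k d : ℕ} (hk : wd (n + q) s ≤ k) (hd : 0 < d)
    {a : Fin s → (Fin (n + 1) →₀ ℕ)} (ha : a ∈ TuplesIn I d) (h : Apart I 0 d a) :
    TypI (liftI q' I) (k * d) (liftA q' (fun i => k • a i)) := by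
  rw [liftA_smul]
  exact smul_typI (n := n + q') (liftI_nonempty hI) ((wd_mono (by omega) s).trans hk) hd
    (liftA_mem.2 ha) (apart_lift hn hd ha h q')

end Pool.Agent.L5helper62.MC
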